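import Pool.Agent.H6.TP.Targets

/-!
# PHS: the modulus of a correlation is attained by a cosine
-/

set_option autoImplicit false

open Finset Pool.Agent.H6.N4D

namespace Pool.Agent.H51.TP

open Pool.Agent.H6.TP

theorem wv_eq (n m : ℕ) (θ φ : ℝ) : wv n θ φ m = (ee (-(θ * m)) * ee (θ * n - φ)).re := by
  rw [← ee_add]
  unfold ee wv
  rw [Complex.exp_ofReal_mul_I_re, ← Real.cos_neg]
  congr 1
  ring

theorem sum_eq (lam : ℕ → ℝ) (N n : ℕ) (θ φ : ℝ) :
    (∑ m ∈ Ioc n (n + N), lam m * wv n θ φ m) / N =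
    (((1 / (N : ℂ)) * ∑ m ∈ Ioc n (n + N), (lam m : ℂ) * ee (-(θ * m))) * ee (θ * n - φ)).re := by
  have h1 : ((1 / (N : ℂ)) * ∑ m ∈ Ioc n (n + N), (lam m : ℂ) * ee (-(θ * m))) * ee (θ * n - φ) =
      ((1 / (N : ℝ) : ℝ) : ℂ) * ∑ m ∈ Ioc n (n + N), (lam m : ℂ) * (ee (-(θ * m)) *
        ee (θ * n - φ)) := by
    rw [mul_assoc, Finset.sum_mul]
    push_cast
    congr 1
    exact Finset.sum_congr rfl fun m _ => by ring
  rw [h1, Complex.re_ofReal_mul, Complex.re_sum, div_eq_mul_inv, mul_comm, one_div]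
  congr 1
  refine Finset.sum_congr rfl fun m _ => ?_
  rw [Complex.re_ofReal_mul, wv_eq]

theorem pf_PHS : T_PHS := by
  intro lam N n θ _
  obtain ⟨z, hz⟩ : ∃ z : ℂ, z = (1 / (N : ℂ)) * ∑ m ∈ Ioc n (n + N), (lam m : ℂ) * ee (-(θ * m)) :=
    ⟨_, rfl⟩
  have hc : cor lam N n θ = ‖z‖ := by
    unfold cor
    rw [hz]
  refine ⟨⟨θ * n + z.arg / (2 * Real.pi), ?_⟩, fun φ => ?_⟩
  · rw [sum_eq, ← hz, hc]
    have h1 : θ * n - (θ * n + z.arg / (2 * Real.pi)) = -(z.arg / (2 * Real.pi)) := by ring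
    rw [h1]
    have h2 : ee (-(z.arg / (2 * Real.pi))) = Complex.exp (-(z.arg * Complex.I)) := by
      unfold ee
      congr 1
      have h3 : 2 * Real.pi * -(z.arg / (2 * Real.pi)) = -z.arg := by
        have := Real.pi_pos
        field_simp
      rw [h3]
      push_cast
      ring
    rw [h2]
    have h4 : z * Complex.exp (-(z.arg * Complex.I)) = ‖z‖ := by
      have h5 := Complex.norm_mul_exp_arg_mul_I z
      calc z * Complex.exp (-(z.arg * Complex.I))
          = (‖z‖ * Complex.exp (z.arg * Complex.I)) * Complex.exp (-(z.arg * Complex.I)) := by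
            rw [h5]
        _ = ‖z‖ := by
            rw [mul_assoc, ← Complex.exp_add, add_neg_cancel, Complex.exp_zero, mul_one]
    rw [h4, Complex.ofReal_re]
  · rw [sum_eq, ← hz, hc]
    refine (Complex.re_le_norm _).trans ?_
    rw [norm_mul, norm_ee, mul_one]

end Pool.Agent.H51.TP
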